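import Mathlib

namespace Pool.Agent.Results.MP_96dc1b_co.Lines

/-- The r-dynamic chromatic number. -/
noncomputable def chi {V : Type} (G : SimpleGraph V) (r : ℕ) : ℕ :=
  sInf {k | ∃ φ : V → Fin k, (∀ u v, G.Adj u v → φ u ≠ φ v) ∧
    ∀ v, min r (G.neighborSet v).ncard ≤ (φ '' G.neighborSet v).ncard}

/-- Treewidth: least w such that some tree decomposition has all bags of size at most w + 1. -/
noncomputable def tw {V : Type} (G : SimpleGraph V) : ℕ :=
  sInf {w | ∃ (ι : Type) (_ : Finite ι) (T : SimpleGraph ι) (B : ι → Set V), T.IsTree ∧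
    (∀ u v, G.Adj u v → ∃ t, u ∈ B t ∧ v ∈ B t) ∧ (∀ v, (T.induce {t | v ∈ B t}).Connected) ∧
    ∀ t, (B t).ncard ≤ w + 1}

theorem result (C : ℝ) : ∃ (V : Type) (_ : Finite V) (G : SimpleGraph V) (r : ℕ), 1 ≤ r ∧
    C * ((tw G : ℝ) + r) < chi G r := by
  classical
  obtain ⟨c, hc⟩ := exists_nat_ge C
  obtain ⟨m, hm⟩ : ∃ m, m = 3 * c + 1 := ⟨_, rfl⟩
  let P := Fin m × Fin (m * m)
  let L := Fin m × Fin m
  let G : SimpleGraph (P ⊕ L) := SimpleGraph.fromRel fun x y =>
    ∃ p l, x = .inl p ∧ y = .inr l ∧ (p.1 = l.1 ∨ p.1 = l.2)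
  have hN : ∀ l : L, G.neighborSet (.inr l) = Sum.inl '' {p : P | p.1 = l.1 ∨ p.1 = l.2} := by
    intro l
    ext x
    rcases x with p | l' <;> simp [G]
  have hdeg : ∀ l : L, (G.neighborSet (.inr l)).ncard ≤ 2 * (m * m) := by
    intro l
    have h1 : ∀ i : Fin m, {p : P | p.1 = i}.ncard ≤ m * m := by
      intro i
      have := Set.ncard_le_ncard_of_injOn (s := {p : P | p.1 = i}) (t := Set.univ) Prod.snd
        (fun _ _ => trivial) fun p hp q hq h => Prod.ext (hp.trans hq.symm) h
      simpa using this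
    rw [hN, Set.ncard_image_of_injective _ Sum.inl_injective]
    have := Set.ncard_union_le {p : P | p.1 = l.1} {p : P | p.1 = l.2}
    have := h1 l.1
    have := h1 l.2
    change ({p : P | p.1 = l.1} ∪ {p : P | p.1 = l.2}).ncard ≤ _
    omega
  have htw : tw G ≤ m * m := by
    refine Nat.sInf_le ⟨Option P, inferInstance, SimpleGraph.starGraph none,
      fun t => {x | (∃ l, x = .inr l) ∨ ∃ p, t = some p ∧ x = .inl p},
      SimpleGraph.isTree_starGraph _, ?_, ?_, ?_⟩
    · rintro u v ⟨-, ⟨p, l, rfl, rfl, -⟩ | ⟨p, l, rfl, rfl, -⟩⟩ <;> exact ⟨some p, by simp⟩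
    · rintro (p | l)
      · have : {t : Option P | (Sum.inl p : P ⊕ L) ∈
            {x | (∃ l, x = .inr l) ∨ ∃ p, t = some p ∧ x = .inl p}} = {some p} := by
          ext t; simp
        rw [this]
        exact ⟨fun x y => by rw [Subsingleton.elim x y]⟩
      · have : {t : Option P | (Sum.inr l : P ⊕ L) ∈
            {x | (∃ l, x = .inr l) ∨ ∃ p, t = some p ∧ x = .inl p}} = Set.univ := by
          ext t; simp
        rw [this]
        exact (SimpleGraph.induceUnivIso _).connected_iff.2 (SimpleGraph.connected_starGraph _)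
    · intro t
      have h1 : (Set.range (Sum.inr : L → P ⊕ L)).ncard = m * m := by
        rw [Set.ncard_range_of_injective Sum.inr_injective]; simp [L]
      rcases t with _ | p
      · refine le_trans (Set.ncard_le_ncard (t := Set.range Sum.inr) ?_) (by omega)
        intro x hx
        simpa [eq_comm] using hx
      · refine le_trans (Set.ncard_le_ncard (t := insert (.inl p) (Set.range Sum.inr)) ?_)
          ((Set.ncard_insert_le _ _).trans (by omega))
        intro x hx
        simpa [eq_comm, or_comm] using hx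
  have hchi : m * (m * m) ≤ chi G (2 * (m * m)) := by
    refine le_csInf ⟨_, Fintype.equivFin (P ⊕ L), fun u v h e => h.ne (Equiv.injective _ e),
      fun v => ?_⟩ ?_
    · rw [Set.ncard_image_of_injective _ (Equiv.injective _)]
      exact min_le_right _ _
    · rintro k ⟨φ, -, h⟩
      have hi : Function.Injective fun p : P => φ (.inl p) := by
        intro p q e
        have h1 := h (.inr (p.1, q.1))
        rw [min_eq_right (hdeg _)] at h1
        have h2 := Set.injOn_of_ncard_image_eq (le_antisymm (Set.ncard_image_le) h1)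
        exact Sum.inl_injective (h2 (by rw [hN]; simp) (by rw [hN]; simp) e)
      simpa [P] using Fintype.card_le_of_injective _ hi
  have hm0 : 0 < m * m := by rw [hm]; positivity
  refine ⟨P ⊕ L, inferInstance, G, 2 * (m * m), by omega, ?_⟩
  have h1 : c * (tw G + 2 * (m * m)) < chi G (2 * (m * m)) := by
    have : c * (tw G + 2 * (m * m)) ≤ c * (3 * (m * m)) := Nat.mul_le_mul_left _ (by omega)
    have h2 : m * (m * m) = c * (3 * (m * m)) + m * m := by
      nth_rewrite 1 [hm]; ring
    omega
  refine lt_of_le_of_lt (mul_le_mul_of_nonneg_right hc (by positivity)) ?_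
  exact_mod_cast h1

end Pool.Agent.Results.MP_96dc1b_co.Lines
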